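import Pool.Agent.helper88.PF.Spec

/-! # Row pf:BGA (MP_0b485e_lc): the finite game -/

set_option linter.unusedVariables false

namespace PF

noncomputable section

/-- the second and the third property of closed sets -/
def BGA_P {α β : Type} [LE α] [LE β] (D : Set (α × β)) (θ : α → β → Prop) : Prop :=
  (∀ u u' v, u ≤ u' → (u, v) ∈ D → (u', v) ∈ D) ∧
    ∀ u v, (u, v) ∈ D → ∃ v', v ≤ v' ∧ (u, v') ∈ D ∧ θ u v'

/-- adding a column -/
theorem BGA_add {α β : Type} [PartialOrder α] [PartialOrder β] {W : Set (α × β)}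
    {θ : α → β → Prop} (hW : BGA_P W θ) (u : α) (v : β)
    (h : ∀ u', u ≤ u' → (∃ v', v ≤ v' ∧ (u', v') ∈ W ∧ θ u' v') ∨ θ u' v) :
    BGA_P (W ∪ {s | u ≤ s.1 ∧ s.2 = v}) θ := by
  constructor
  · rintro a a' b hab (h1 | ⟨h1, h2⟩)
    · exact Or.inl (hW.1 a a' b hab h1)
    · exact Or.inr ⟨le_trans h1 hab, h2⟩
  · rintro a b (h1 | ⟨h1, h2⟩)
    · obtain ⟨b', h3, h4, h5⟩ := hW.2 a b h1
      exact ⟨b', h3, Or.inl h4, h5⟩
    · have h2' : b = v := h2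
      subst h2'
      rcases h a h1 with ⟨v', h3, h4, h5⟩ | h3
      · exact ⟨v', h3, Or.inl h4, h5⟩
      · exact ⟨b, le_rfl, Or.inr ⟨h1, rfl⟩, h3⟩

theorem BGA : BGA_stmt := by
  intro α β θ hno
  obtain ⟨W, hWd⟩ : ∃ W : Set (α × β), W = {s | ∃ D : Set (α × β), BGA_P D θ ∧ s ∈ D} := ⟨_, rfl⟩
  have hmax : ∀ D : Set (α × β), BGA_P D θ → D ⊆ W := by
    intro D hD s hs
    rw [hWd]
    exact ⟨D, hD, hs⟩
  have hW : BGA_P W θ := by
    constructor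
    · intro u u' v huu h
      rw [hWd] at h
      obtain ⟨D, hD, hs⟩ := h
      exact hmax D hD (hD.1 u u' v huu hs)
    · intro u v h
      rw [hWd] at h
      obtain ⟨D, hD, hs⟩ := h
      obtain ⟨v', h1, h2, h3⟩ := hD.2 u v hs
      exact ⟨v', h1, hmax D hD h2, h3⟩
  have hbot : ((⊥, ⊥) : α × β) ∉ W := fun h => hno ⟨W, h, hW.1, hW.2⟩
  have L1 : ∀ (u : α) (v v' : β), v ≤ v' → (u, v') ∈ W → (u, v) ∈ W := by
    intro u v v' hv h
    apply hmax _ (BGA_add hW u v _) (Or.inr ⟨le_rfl, rfl⟩)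
    intro u' hu
    obtain ⟨v'', h1, h2, h3⟩ := hW.2 u' v' (hW.1 u u' v' hu h)
    exact Or.inl ⟨v'', hv.trans h1, h2, h3⟩
  have L2 : ∀ (u : α) (v : β), (u, v) ∉ W → θ u v →
      ∃ u', u < u' ∧ ∀ v', v ≤ v' → θ u' v' → (u', v') ∉ W := by
    intro u v hn hθ
    by_contra hcon
    apply hn
    apply hmax _ (BGA_add hW u v _) (Or.inr ⟨le_rfl, rfl⟩)
    intro u' hu
    rcases hu.eq_or_lt with h1 | h1
    · right
      rw [← h1]
      exact hθ
    · left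
      by_contra h2
      apply hcon
      refine ⟨u', h1, ?_⟩
      intro v' h3 h4 h5
      exact h2 ⟨v', h3, h5, h4⟩
  refine ⟨fun u v => ∀ v', v ≤ v' → θ u v' → (u, v') ∉ W, ?_, ?_, ?_⟩
  · intro v' _ _ h
    exact hbot (L1 ⊥ ⊥ v' bot_le h)
  · intro u v v' hv h v'' h1
    exact h v'' (hv.trans h1)
  · intro u v h hθ
    exact L2 u v (h v le_rfl hθ) hθ

end

end PF
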