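import Pool.Agent.helper88.PF.Spec

/-! # Row pf:DPC (MP_0b485e_lc): the computation of the normal form is primitive recursive -/

set_option linter.unusedVariables false

namespace PF

noncomputable section

theorem DPC_dist {Z A : Type} [Primcodable Z] [Primcodable A]
    {X Y : Z → List (List A × List A)} (hX : Primrec X) (hY : Primrec Y) :
    Primrec fun z => dist (X z) (Y z) := by
  unfold dist
  apply Primrec.list_flatMap hX
  have h1 : Primrec fun p : Z × (List A × List A) => Y p.1 := hY.comp Primrec.fst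
  have h2 : Primrec₂ fun (p : Z × (List A × List A)) (d : List A × List A) =>
      (p.2.1 ++ d.1, p.2.2 ++ d.2) := by
    have e1 : Primrec fun q : (Z × (List A × List A)) × (List A × List A) => q.1.2 :=
      Primrec.snd.comp Primrec.fst
    have e2 : Primrec fun q : (Z × (List A × List A)) × (List A × List A) => q.2 := Primrec.snd
    exact Primrec.pair (Primrec.list_append.comp (Primrec.fst.comp e1) (Primrec.fst.comp e2))
      (Primrec.list_append.comp (Primrec.snd.comp e1) (Primrec.snd.comp e2))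
  exact Primrec.list_map h1 h2

/-- entries of the stack -/
abbrev DPC_E : Type := List ℕ × List SCla × List SCla

section

variable {Z : Type} [Primcodable Z]

theorem DPC_push {f : Z → DPC_E} {g : Z → List DPC_E} (hf : Primrec f) (hg : Primrec g) :
    Primrec fun z => f z :: g z := Primrec.list_cons.comp hf hg

theorem DPC_mk {f : Z → List ℕ} {g h : Z → List SCla} (hf : Primrec f) (hg : Primrec g)
    (hh : Primrec h) : Primrec fun z => ((f z, g z, h z) : DPC_E) :=
  Primrec.pair hf (Primrec.pair hg hh)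

theorem DPC_one {f : Z → ℕ} (hf : Primrec f) : Primrec fun z => [f z] :=
  Primrec.list_cons.comp hf (Primrec.const [])

theorem DPC_sing {f g : Z → List ℕ} (hf : Primrec f) (hg : Primrec g) :
    Primrec fun z => [(f z, g z)] :=
  Primrec.list_cons.comp (Primrec.pair hf hg) (Primrec.const [])

theorem DPC_c1 {f g : Z → List ℕ} (hf : Primrec f) (hg : Primrec g) :
    Primrec fun z => ([([], [(f z, g z)])] : List SCla) :=
  Primrec.list_cons.comp (Primrec.pair (Primrec.const []) (DPC_sing hf hg)) (Primrec.const [])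

theorem DPC_c2 {f g : Z → List ℕ} (hf : Primrec f) (hg : Primrec g) :
    Primrec fun z => ([([(f z, g z)], [])] : List SCla) :=
  Primrec.list_cons.comp (Primrec.pair (DPC_sing hf hg) (Primrec.const [])) (Primrec.const [])

theorem DPC_eqc {f : Z → ℕ} (hf : Primrec f) (c : ℕ) : PrimrecPred fun z => f z = c :=
  Primrec.eq.comp hf (Primrec.const c)

end

theorem DPC_step : Primrec₂ cnfStep := by
  have hst : Primrec fun z : List DPC_E × ℕ => z.1 := Primrec.fst
  have hn : Primrec fun z : List DPC_E × ℕ => z.2 := Primrec.snd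
  have ha : Primrec fun z : List DPC_E × ℕ => z.1.getD 0 ([], [], []) :=
    (Primrec.list_getD _).comp hst (Primrec.const 0)
  have hb : Primrec fun z : List DPC_E × ℕ => z.1.getD 1 ([], [], []) :=
    (Primrec.list_getD _).comp hst (Primrec.const 1)
  have hd2 : Primrec fun z : List DPC_E × ℕ => z.1.drop 2 :=
    Primrec.list_drop.comp (Primrec.const 2) hst
  have hd1 : Primrec fun z : List DPC_E × ℕ => z.1.drop 1 :=
    Primrec.list_drop.comp (Primrec.const 1) hst
  have ha1 := Primrec.fst.comp ha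
  have ha2 := Primrec.fst.comp (Primrec.snd.comp ha)
  have ha3 := Primrec.snd.comp (Primrec.snd.comp ha)
  have hb1 := Primrec.fst.comp hb
  have hb2 := Primrec.fst.comp (Primrec.snd.comp hb)
  have hb3 := Primrec.snd.comp (Primrec.snd.comp hb)
  have hnil : Primrec fun z : List DPC_E × ℕ => ([] : List SCla) := Primrec.const []
  have hnl : Primrec fun z : List DPC_E × ℕ => ([] : List ℕ) := Primrec.const []
  have f0 : Primrec fun z : List DPC_E × ℕ => (([z.2], [], []) : DPC_E) :: z.1 :=
    DPC_push (DPC_mk (DPC_one hn) hnil hnil) hst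
  have f2 : Primrec fun z : List DPC_E × ℕ => (((z.1.getD 1 ([], [], [])).1 ++
      (z.1.getD 0 ([], [], [])).1 ++ [z.2], [], []) : DPC_E) :: z.1.drop 2 :=
    DPC_push (DPC_mk (Primrec.list_append.comp (Primrec.list_append.comp hb1 ha1) (DPC_one hn))
      hnil hnil) hd2
  have f4 : Primrec fun z : List DPC_E × ℕ => (([],
      [([], [((z.1.getD 1 ([], [], [])).1, (z.1.getD 0 ([], [], [])).1)])],
      [([((z.1.getD 1 ([], [], [])).1, (z.1.getD 0 ([], [], [])).1)], [])]) : DPC_E) ::
        z.1.drop 2 :=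
    DPC_push (DPC_mk hnl (DPC_c1 hb1 ha1) (DPC_c2 hb1 ha1)) hd2
  have f5 : Primrec fun z : List DPC_E × ℕ => (([], (z.1.getD 0 ([], [], [])).2.2,
      (z.1.getD 0 ([], [], [])).2.1) : DPC_E) :: z.1.drop 1 :=
    DPC_push (DPC_mk hnl ha3 ha2) hd1
  have f6 : Primrec fun z : List DPC_E × ℕ => (([], (z.1.getD 1 ([], [], [])).2.1 ++
      (z.1.getD 0 ([], [], [])).2.1, dist (z.1.getD 1 ([], [], [])).2.2
      (z.1.getD 0 ([], [], [])).2.2) : DPC_E) :: z.1.drop 2 :=
    DPC_push (DPC_mk hnl (Primrec.list_append.comp hb2 ha2) (DPC_dist hb3 ha3)) hd2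
  have f7 : Primrec fun z : List DPC_E × ℕ => (([], dist (z.1.getD 1 ([], [], [])).2.1
      (z.1.getD 0 ([], [], [])).2.1, (z.1.getD 1 ([], [], [])).2.2 ++
      (z.1.getD 0 ([], [], [])).2.2) : DPC_E) :: z.1.drop 2 :=
    DPC_push (DPC_mk hnl (DPC_dist hb2 ha2) (Primrec.list_append.comp hb3 ha3)) hd2
  exact Primrec.ite ((DPC_eqc hn 0).or (DPC_eqc hn 1)) f0
    (Primrec.ite ((DPC_eqc hn 2).or (DPC_eqc hn 3)) f2
      (Primrec.ite (DPC_eqc hn 4) f4 (Primrec.ite (DPC_eqc hn 5) f5
        (Primrec.ite (DPC_eqc hn 6) f6 (Primrec.ite (DPC_eqc hn 7) f7 f0)))))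

theorem DPC : DPC_stmt := by
  have h1 : Primrec fun l : List ℕ => l.foldl cnfStep [] :=
    Primrec.list_foldl (h := fun _ p => cnfStep p.1 p.2) Primrec.id (Primrec.const [])
      ((DPC_step.comp (Primrec.fst.comp Primrec.snd) (Primrec.snd.comp Primrec.snd)).to₂)
  have h2 : Primrec fun l : List ℕ => (l.foldl cnfStep []).getD 0 ([], [], []) :=
    (Primrec.list_getD _).comp h1 (Primrec.const 0)
  exact Primrec.fst.comp (Primrec.snd.comp h2)

end

end PF
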